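import Pool.Agent.H207.TF.Stm3

/-! # Project TF (helper207), task WRD (helper350): derivatives of the Taylor coefficients of the
Wronskian -/

set_option autoImplicit false

open Metric Set MeasureTheory Filter Topology Polynomial
open scoped OnePoint ENNReal

namespace Pool.Agent.H350.TF207

open Pool.Agent.H207.TF
open Pool.Agent.H792R2.CE Pool.Agent.H211.LR Pool.Agent.H211.AD
open Pool.Agent.H211.LD (pol)

lemma wr_sum {n m : ℕ} (a : Fin n → ℂ) (b : Fin m → ℂ) : wr (pol a) (pol b) =
    ∑ i : Fin n, ∑ k : Fin m, C (a i * b k) * wr (X ^ (i : ℕ)) (X ^ (k : ℕ)) := by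
  unfold wr pol
  rw [derivative_sum, derivative_sum, Finset.sum_mul_sum, Finset.sum_mul_sum,
    ← Finset.sum_sub_distrib]
  refine Finset.sum_congr rfl fun i _ => ?_
  rw [← Finset.sum_sub_distrib]
  refine Finset.sum_congr rfl fun k _ => ?_
  rw [derivative_C_mul, derivative_C_mul, C_mul]
  ring

lemma hasse_C_mul (j : ℕ) (c : ℂ) (P : ℂ[X]) : hasseDeriv j (C c * P) = C c * hasseDeriv j P := by
  rw [← smul_eq_C_mul, ← smul_eq_C_mul, map_smul]

lemma contDiff_eval (P : ℂ[X]) : ContDiff ℂ 1 (fun z : ℂ => P.eval z) := by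
  simp only [Polynomial.eval_eq_sum_range]
  exact ContDiff.sum fun i _ => contDiff_const.mul (contDiff_id.pow i)

lemma F_cd (d j : ℕ) : ContDiff ℂ 1
    (fun p : EE d × ℂ => (hasseDeriv j (wr (PP p.1) (QQ p.1))).eval p.2) := by
  have h1 : (fun p : EE d × ℂ => (hasseDeriv j (wr (PP p.1) (QQ p.1))).eval p.2) =
      fun p : EE d × ℂ => ∑ i : Fin (d + 1), ∑ k : Fin (d + 1), p.1 (0, i) * p.1 (1, k) *
        (hasseDeriv j (wr (X ^ (i : ℕ)) (X ^ (k : ℕ)))).eval p.2 := by
    funext p
    unfold PP QQ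
    rw [wr_sum, map_sum, eval_finsetSum]
    refine Finset.sum_congr rfl fun i _ => ?_
    rw [map_sum, eval_finsetSum]
    refine Finset.sum_congr rfl fun k _ => ?_
    rw [hasse_C_mul, eval_mul, eval_C]
  rw [h1]
  refine ContDiff.sum fun i _ => ContDiff.sum fun k _ => ?_
  have h2 : ContDiff ℂ 1 (fun p : EE d × ℂ => p.1 (0, i)) :=
    (contDiff_apply ℂ ℂ ((0 : Fin 2), i)).comp contDiff_fst
  have h3 : ContDiff ℂ 1 (fun p : EE d × ℂ => p.1 (1, k)) :=
    (contDiff_apply ℂ ℂ ((1 : Fin 2), k)).comp contDiff_fst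
  have h4 : ContDiff ℂ 1 (fun p : EE d × ℂ =>
      (hasseDeriv j (wr (X ^ (i : ℕ)) (X ^ (k : ℕ)) : ℂ[X])).eval p.2) :=
    (contDiff_eval _).comp contDiff_snd
  exact (h2.mul h3).mul h4

lemma pol_add {n : ℕ} (a b : Fin n → ℂ) (s : ℂ) :
    pol (fun i => a i + s * b i) = pol a + C s * pol b := by
  unfold pol
  rw [Finset.mul_sum, ← Finset.sum_add_distrib]
  refine Finset.sum_congr rfl fun i _ => ?_
  rw [C_add, C_mul]
  ring

lemma line {d : ℕ} (x v : EE d) (j : ℕ) (s : ℂ) :
    hasseDeriv j (wr (PP (x + s • v)) (QQ (x + s • v))) =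
      hasseDeriv j (wr (PP x) (QQ x)) + C s * hasseDeriv j (varW x v) +
        C (s * s) * hasseDeriv j (wr (PP v) (QQ v)) := by
  have hP : PP (x + s • v) = PP x + C s * PP v := pol_add _ _ s
  have hQ : QQ (x + s • v) = QQ x + C s * QQ v := pol_add _ _ s
  rw [hP, hQ, ← hasse_C_mul, ← hasse_C_mul, ← map_add, ← map_add]
  congr 1
  unfold varW wr
  rw [derivative_add, derivative_add, derivative_C_mul, derivative_C_mul, C_mul]
  ring

lemma deriv_hasse (j : ℕ) (P : ℂ[X]) :
    derivative (hasseDeriv j P) = C ((j : ℂ) + 1) * hasseDeriv (j + 1) P := by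
  have h1 := congrArg (fun L => L P) (hasseDeriv_comp (R := ℂ) 1 j)
  simp only [LinearMap.comp_apply, LinearMap.smul_apply, hasseDeriv_one'] at h1
  rw [h1, Nat.choose_one_right, add_comm 1 j, nsmul_eq_mul]
  push_cast
  rw [C_add, C_1]
  congr 1

theorem t_WRD : Pool.Agent.H207.TF.S_WRD := by
  intro d x z j
  refine ⟨(F_cd d j).contDiffAt, fun v w => ?_⟩
  set F : EE d × ℂ → ℂ := fun p => (hasseDeriv j (wr (PP p.1) (QQ p.1))).eval p.2 with hF
  have hdF : DifferentiableAt ℂ F (x, z) := ((F_cd d j).differentiable one_ne_zero) (x, z)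
  -- the line
  have hl1 : HasDerivAt (fun s : ℂ => x + s • v) v 0 := by
    have h := ((hasDerivAt_id (0 : ℂ)).smul_const v).const_add x
    simpa using h
  have hl2 : HasDerivAt (fun s : ℂ => z + s * w) w 0 := by
    have h := ((hasDerivAt_id (0 : ℂ)).mul_const w).const_add z
    simpa using h
  have hl : HasDerivAt (fun s : ℂ => (x + s • v, z + s * w)) (v, w) 0 := hl1.prodMk hl2
  have hF0 : HasFDerivAt F (fderiv ℂ F (x, z)) ((fun s : ℂ => (x + s • v, z + s * w)) 0) := by
    simp only [zero_smul, add_zero, zero_mul]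
    exact hdF.hasFDerivAt
  have h1 : HasDerivAt (F ∘ fun s : ℂ => (x + s • v, z + s * w)) (fderiv ℂ F (x, z) (v, w)) 0 :=
    hF0.comp_hasDerivAt (0 : ℂ) hl
  -- the other computation
  have h2 : (F ∘ fun s : ℂ => (x + s • v, z + s * w)) = fun s : ℂ =>
      (hasseDeriv j (wr (PP x) (QQ x))).eval (z + s * w) +
        s * (hasseDeriv j (varW x v)).eval (z + s * w) +
        s * s * (hasseDeriv j (wr (PP v) (QQ v))).eval (z + s * w) := by
    funext s
    simp only [Function.comp_apply, hF]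
    rw [line]
    simp only [eval_add, eval_mul, eval_C]
  have hpol : ∀ P : ℂ[X], HasDerivAt (fun s : ℂ => P.eval (z + s * w))
      ((derivative P).eval z * w) 0 := by
    intro P
    have h := (P.hasDerivAt (z + (0 : ℂ) * w))
    rw [zero_mul, add_zero] at h
    have h' : HasDerivAt (fun y : ℂ => P.eval y) ((derivative P).eval z) ((fun s : ℂ => z + s * w) 0) := by
      simp only [zero_mul, add_zero]
      exact h
    exact h'.comp (0 : ℂ) hl2
  have h3 : HasDerivAt (fun s : ℂ => (hasseDeriv j (wr (PP x) (QQ x))).eval (z + s * w) +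
        s * (hasseDeriv j (varW x v)).eval (z + s * w) +
        s * s * (hasseDeriv j (wr (PP v) (QQ v))).eval (z + s * w))
      (eqW x v z w j) 0 := by
    have a1 := hpol (hasseDeriv j (wr (PP x) (QQ x)))
    have a2 := (hasDerivAt_id (0 : ℂ)).mul (hpol (hasseDeriv j (varW x v)))
    have a3 := ((hasDerivAt_id (0 : ℂ)).mul (hasDerivAt_id (0 : ℂ))).mul
      (hpol (hasseDeriv j (wr (PP v) (QQ v))))
    have a4 := (a1.add a2).add a3
    have e1 : eqW x v z w j = (derivative (hasseDeriv j (wr (PP x) (QQ x)))).eval z * w +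
        (1 * (hasseDeriv j (varW x v)).eval (z + 0 * w) +
          id 0 * ((derivative (hasseDeriv j (varW x v))).eval z * w)) +
        ((1 * id 0 + id 0 * 1) * (hasseDeriv j (wr (PP v) (QQ v))).eval (z + 0 * w) +
          (id 0 * id 0) * ((derivative (hasseDeriv j (wr (PP v) (QQ v)))).eval z * w)) := by
      unfold eqW
      rw [deriv_hasse, eval_mul, eval_C]
      simp only [id, zero_mul, mul_zero, add_zero, one_mul]
      ring
    rw [e1]
    exact a4
  rw [h2] at h1
  exact h1.unique h3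

end Pool.Agent.H350.TF207
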